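import Mathlib
import Pool.Agent.X3.OmegaAsym

/-!
# Many prime factors of `n j ± a ^ h k` simultaneously

Q1 has a positive answer: for all real `K ≥ 2` and `0 < ε < 1` and all large real `x` the interval
`[x, (1 + 1/K) x]` contains at least `x ^ (1 - ε)` integers `n` such that all the numbers
`n j + a ^ h k` and `n j - a ^ h k` with `2 ≤ a ≤ K`, `1 ≤ j, k ≤ K`, `0 ≤ h ≤ K log x` have at least
`(log log x) ^ (1 - ε)` distinct prime factors.

The proof: for every `a` and every odd `t` up to a power of `log x` there is a prime `p` modulo which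
`a ^ 2` has order `t`. If `n j ± a ^ h k` is divisible by `p` then so are the numbers with
`h' = h mod 2 t`. The residues of `n` modulo these primes are chosen by the method of conditional
expectations, such that few of the `O(log x)` numbers have few of these primes as divisors; the
remaining numbers are divided by further small primes, each of which is used for one of them.
-/

set_option autoImplicit false

namespace Pool.Agent.Results.MP_28b5ac_nt.SimultaneousOmega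

open Finset Filter Topology Pool.Agent.X3.OmegaAvg Pool.Agent.X3.OmegaFin Pool.Agent.X3.OmegaAsym

/-- the number of distinct primes which divide `m`; `0` for `m = 0` -/
def omega (m : ℤ) : ℕ := m.natAbs.primeFactors.card

/-- the integer `n` is `(K, ε, x)`-good -/
def Good (K ε x : ℝ) (n : ℤ) : Prop :=
  ∀ (a j k : ℤ) (h : ℕ), 2 ≤ a → (a : ℝ) ≤ K → 1 ≤ j → (j : ℝ) ≤ K → 1 ≤ k → (k : ℝ) ≤ K →
    (h : ℝ) ≤ K * Real.log x →
    Real.log (Real.log x) ^ (1 - ε) ≤ omega (n * j + a ^ h * k) ∧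
    Real.log (Real.log x) ^ (1 - ε) ≤ omega (n * j - a ^ h * k)

lemma good_of {κ H L : ℕ} {K ε x : ℝ} {n : ℤ} (hκ : κ = ⌊K⌋₊) (hH : H = ⌊K * Real.log x⌋₊)
    (hL : Real.log (Real.log x) ^ (1 - ε) ≤ L) (h : GoodN κ H L n) : Good K ε x n := by
  intro a j k e ha1 ha2 hj1 hj2 hk1 hk2 he2
  obtain ⟨a, rfl⟩ := Int.eq_ofNat_of_zero_le (show 0 ≤ a by omega)
  obtain ⟨j, rfl⟩ := Int.eq_ofNat_of_zero_le (show 0 ≤ j by omega)
  obtain ⟨k, rfl⟩ := Int.eq_ofNat_of_zero_le (show 0 ≤ k by omega)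
  have h1 : a ≤ κ := by rw [hκ]; exact Nat.le_floor (by exact_mod_cast ha2)
  have h2 : j ≤ κ := by rw [hκ]; exact Nat.le_floor (by exact_mod_cast hj2)
  have h3 : k ≤ κ := by rw [hκ]; exact Nat.le_floor (by exact_mod_cast hk2)
  have h4 : e ≤ H := by rw [hH]; exact Nat.le_floor (by exact_mod_cast he2)
  have key : ∀ σ : Bool, Real.log (Real.log x) ^ (1 - ε) ≤
      omega (n * (j : ℤ) + sg σ * (a : ℤ) ^ e * k) := by
    intro σ
    have h5 := h ((a, j, k, σ), e) (by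
      rw [mem_product, mem_Tup, mem_range]
      refine ⟨⟨⟨?_, h1⟩, ⟨?_, h2⟩, ⟨?_, h3⟩⟩, ?_⟩
      · show 2 ≤ a
        omega
      · show 1 ≤ j
        omega
      · show 1 ≤ k
        omega
      · show e < H + 1
        omega)
    refine hL.trans ?_
    exact_mod_cast h5
  constructor
  · have := key true
    simpa [sg] using this
  · have := key false
    have e1 : n * (j : ℤ) - (a : ℤ) ^ e * k = n * j + sg false * (a : ℤ) ^ e * k := by
      simp [sg]
      ring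
    rw [e1]
    exact this

/-- **Q1, affirmative.** For all real `K ≥ 2` and `0 < ε < 1` there is `x₀` such that for all real
`x ≥ x₀` the interval `[x, (1 + 1/K) x]` contains at least `x ^ (1 - ε)` integers `n` which are
`(K, ε, x)`-good. -/
theorem result (K ε : ℝ) (hK : 2 ≤ K) (hε : 0 < ε) (hε1 : ε < 1) :
    ∃ x₀ : ℝ, ∀ x : ℝ, x₀ ≤ x →
      x ^ (1 - ε) ≤ ({n : ℤ | x ≤ n ∧ (n : ℝ) ≤ (1 + K⁻¹) * x ∧ Good K ε x n}.ncard : ℝ) := by
  obtain ⟨κ, hκ⟩ : ∃ κ, κ = ⌊K⌋₊ := ⟨_, rfl⟩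
  have hκ2 : 2 ≤ κ := by rw [hκ]; exact Nat.le_floor (by exact_mod_cast hK)
  have h1 := Real.tendsto_log_atTop.eventually
    (asym K ε hK hε hε1 (Tup κ).card (Tup_nonempty hκ2).card_pos κ hκ)
  obtain ⟨x₀, hx₀⟩ := eventually_atTop.1 (h1.and (eventually_gt_atTop 0))
  refine ⟨x₀, fun x hx => ?_⟩
  obtain ⟨⟨T, L, m, Y, a1, a2, a3, a4, a5, a6, a7⟩, hx0⟩ := hx₀ x hx
  obtain ⟨G, hG1, hG2⟩ := count (H := ⌊K * Real.log x⌋₊) hκ2 a1 a2 a4 a5 hx0
    (show 0 < K by linarith) a6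
  have h2 : (G.card : ℝ) ≤
      ({n : ℤ | x ≤ n ∧ (n : ℝ) ≤ (1 + K⁻¹) * x ∧ Good K ε x n}.ncard : ℝ) := by
    have hfin : {n : ℤ | x ≤ n ∧ (n : ℝ) ≤ (1 + K⁻¹) * x ∧ Good K ε x n}.Finite := by
      apply (Set.finite_Icc ⌈x⌉ ⌊(1 + K⁻¹) * x⌋).subset
      rintro n ⟨h3, h4, -⟩
      exact ⟨Int.ceil_le.2 h3, Int.le_floor.2 h4⟩
    have h3 : (G : Set ℤ) ⊆ {n : ℤ | x ≤ n ∧ (n : ℝ) ≤ (1 + K⁻¹) * x ∧ Good K ε x n} := by
      intro n hn
      obtain ⟨h4, h5, h6⟩ := hG1 n hn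
      exact ⟨h4, h5, good_of hκ rfl a3 h6⟩
    have h4 := Set.ncard_le_ncard h3 hfin
    rw [Set.ncard_coe_finset] at h4
    exact_mod_cast h4
  refine le_trans ?_ h2
  refine le_trans ?_ hG2
  rw [Real.exp_log hx0] at a7
  refine le_trans (le_of_eq ?_) a7
  rw [Real.rpow_def_of_pos hx0]
  ring_nf

end Pool.Agent.Results.MP_28b5ac_nt.SimultaneousOmega
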